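import Pool.Agent.helper5.PR.SpecS

/-!
# Project pr, module S-SAT: equality
-/

set_option autoImplicit false

namespace Pool.Agent.PR

open Matrix

/-! ### `m`-adic approximation of rational numbers -/

/-- `q` is in `m ^ N` times the rational numbers with a denominator prime to `m` -/
def S_SAT_I (m N : ℕ) (q : ℚ) : Prop :=
  ∃ (a : ℤ) (b : ℕ), 1 ≤ b ∧ b.Coprime m ∧ q * b = (m : ℚ) ^ N * a

theorem S_SAT_zero (m N : ℕ) : S_SAT_I m N 0 :=
  ⟨0, 1, le_rfl, Nat.coprime_one_left m, by simp⟩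

theorem S_SAT_neg {m N : ℕ} {q : ℚ} (h : S_SAT_I m N q) : S_SAT_I m N (-q) := by
  obtain ⟨a, b, h1, h2, h3⟩ := h
  refine ⟨-a, b, h1, h2, ?_⟩
  push_cast
  rw [neg_mul, h3, mul_neg]

theorem S_SAT_add {m N : ℕ} {q r : ℚ} (h : S_SAT_I m N q) (h' : S_SAT_I m N r) :
    S_SAT_I m N (q + r) := by
  obtain ⟨a, b, h1, h2, h3⟩ := h
  obtain ⟨a', b', h1', h2', h3'⟩ := h'
  refine ⟨a * b' + a' * b, b * b', Nat.mul_pos h1 h1', Nat.Coprime.mul_left h2 h2', ?_⟩
  push_cast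
  calc (q + r) * (b * b') = (q * b) * b' + (r * b') * b := by ring
    _ = (m : ℚ) ^ N * (a * b' + a' * b) := by rw [h3, h3']; ring

theorem S_SAT_mul {m N M : ℕ} {q r : ℚ} (h : S_SAT_I m N q) (h' : S_SAT_I m M r) :
    S_SAT_I m (N + M) (q * r) := by
  obtain ⟨a, b, h1, h2, h3⟩ := h
  obtain ⟨a', b', h1', h2', h3'⟩ := h'
  refine ⟨a * a', b * b', Nat.mul_pos h1 h1', Nat.Coprime.mul_left h2 h2', ?_⟩
  push_cast
  calc (q * r) * (b * b') = (q * b) * (r * b') := by ring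
    _ = (m : ℚ) ^ (N + M) * (a * a') := by rw [h3, h3', pow_add]; ring

theorem S_SAT_sum {m N : ℕ} {ι : Type} (s : Finset ι) (f : ι → ℚ) (h : ∀ i ∈ s, S_SAT_I m N (f i)) :
    S_SAT_I m N (∑ i ∈ s, f i) := by
  classical
  induction s using Finset.induction_on with
  | empty => rw [Finset.sum_empty]; exact S_SAT_zero m N
  | insert a s ha ih =>
    rw [Finset.sum_insert ha]
    exact S_SAT_add (h a (Finset.mem_insert_self a s))
      (ih fun i hi => h i (Finset.mem_insert_of_mem hi))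

theorem S_SAT_cancel {m : ℕ} (hm : 1 ≤ m) {N s : ℕ} {q : ℚ} (h : S_SAT_I m (N + s) ((m : ℚ) ^ s * q)) :
    S_SAT_I m N q := by
  obtain ⟨a, b, h1, h2, h3⟩ := h
  refine ⟨a, b, h1, h2, ?_⟩
  have hm0 : (m : ℚ) ^ s ≠ 0 := pow_ne_zero _ (by exact_mod_cast (by omega : m ≠ 0))
  apply mul_left_cancel₀ hm0
  calc (m : ℚ) ^ s * (q * b) = (m : ℚ) ^ s * q * b := by ring
    _ = (m : ℚ) ^ s * ((m : ℚ) ^ N * a) := by rw [h3, pow_add]; ring

/-- the part of a number made of primes dividing `m` -/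
theorem S_SAT_split (m : ℕ) (d : ℕ) (hd : 1 ≤ d) :
    ∃ s b₁ b₂ : ℕ, d = b₁ * b₂ ∧ b₁ ∣ m ^ s ∧ b₂.Coprime m ∧ 1 ≤ b₂ := by
  induction d using Nat.strong_induction_on with
  | _ d IH =>
    by_cases hg : d.gcd m = 1
    · exact ⟨0, 1, d, (one_mul d).symm, one_dvd _, hg, hd⟩
    · obtain ⟨c, hc⟩ := Nat.gcd_dvd_left d m
      have hg0 : 0 < d.gcd m := Nat.gcd_pos_of_pos_left _ hd
      have hc0 : 1 ≤ c := by
        rcases Nat.eq_zero_or_pos c with h | h
        · rw [h, mul_zero] at hc; omega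
        · exact h
      have hlt : c < d := by
        have h2 : 2 ≤ d.gcd m := by omega
        calc c < 2 * c := by omega
          _ ≤ d.gcd m * c := Nat.mul_le_mul_right c h2
          _ = d := hc.symm
      obtain ⟨s, b₁, b₂, h1, h2, h3, h4⟩ := IH c hlt hc0
      refine ⟨s + 1, d.gcd m * b₁, b₂, ?_, ?_, h3, h4⟩
      · rw [mul_assoc, ← h1]; exact hc
      · rw [pow_succ, mul_comm (m ^ s)]
        exact Nat.mul_dvd_mul (Nat.gcd_dvd_right d m) h2

theorem S_SAT_den (m : ℕ) (q : ℚ) : ∃ s : ℕ, S_SAT_I m 0 ((m : ℚ) ^ s * q) := by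
  obtain ⟨s, b₁, b₂, h1, ⟨c, hc⟩, h3, h4⟩ := S_SAT_split m q.den q.den_pos
  refine ⟨s, c * q.num, b₂, h4, h3, ?_⟩
  have hq : q * q.den = q.num := Rat.mul_den_eq_num q
  rw [h1] at hq
  push_cast at hq ⊢
  have hc' : (m : ℚ) ^ s = b₁ * c := by exact_mod_cast hc
  rw [pow_zero, one_mul, hc', ← hq]
  ring

/-! ### the ring `ℤ[1/m]` -/

theorem S_SAT_frac (m : ℕ) (c : ℤ) (t : ℕ) : (c : ℚ) * ((m : ℚ)⁻¹) ^ t ∈ ZI m := by
  have h1 : ((m : ℚ)⁻¹) ∈ ZI m := Algebra.subset_adjoin (Set.mem_singleton _)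
  have h2 : (c : ℚ) ∈ ZI m := by
    have h := (ZI m).algebraMap_mem c
    rwa [eq_intCast] at h
  exact (ZI m).mul_mem h2 ((ZI m).pow_mem h1 t)

theorem S_SAT_repr (hZI : S_ZI_stmt) (m : ℕ) (hm : 1 ≤ m) (x : ℚ) (hx : x ∈ ZI m) :
    ∃ (t : ℕ) (c : ℤ), x * (m : ℚ) ^ t = c := by
  obtain ⟨t, d, hd⟩ := (hZI m hm x).1 hx
  refine ⟨t, x.num * d, ?_⟩
  have h1 : (m : ℚ) ^ t = x.den * d := by exact_mod_cast hd
  have hq : x * x.den = x.num := Rat.mul_den_eq_num x
  rw [h1]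
  push_cast
  rw [← hq]
  ring

/-- a small element of `ℤ[1/m]` is an integer -/
theorem S_SAT_int (hZI : S_ZI_stmt) (m : ℕ) (hm : 1 ≤ m) (N : ℕ) (x : ℚ) (hx : x ∈ ZI m)
    (h : S_SAT_I m N x) : ∃ a : ℤ, x = (m : ℚ) ^ N * a := by
  obtain ⟨t, c, hc⟩ := S_SAT_repr hZI m hm x hx
  obtain ⟨a, b, h1, h2, h3⟩ := h
  have hm0 : (m : ℚ) ≠ 0 := by exact_mod_cast (by omega : m ≠ 0)
  have h4 : c * (b : ℤ) = (m : ℤ) ^ (N + t) * a := by
    have h5 : (c : ℚ) * b = (m : ℚ) ^ (N + t) * a := by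
      rw [← hc, pow_add]
      calc x * (m : ℚ) ^ t * b = (x * b) * (m : ℚ) ^ t := by ring
        _ = _ := by rw [h3]; ring
    exact_mod_cast h5
  have h6 : IsCoprime ((m : ℤ) ^ (N + t)) (b : ℤ) := by
    have h7 : IsCoprime (m : ℤ) (b : ℤ) := Nat.isCoprime_iff_coprime.2 h2.symm
    exact h7.pow_left
  have h8 : (m : ℤ) ^ (N + t) ∣ c := h6.dvd_of_dvd_mul_right ⟨a, h4⟩
  obtain ⟨e, he⟩ := h8
  refine ⟨e, ?_⟩
  have h9 : x * (m : ℚ) ^ t = (m : ℚ) ^ N * e * (m : ℚ) ^ t := by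
    rw [hc, he, pow_add]
    push_cast
    ring
  exact mul_right_cancel₀ (pow_ne_zero t hm0) h9

/-- approximation by multiples of `K` -/
theorem S_SAT_appr (m K : ℕ) (hm : 1 ≤ m) (hK : K.Coprime m) (c : ℚ) (N : ℕ) :
    ∃ r : ZI m, S_SAT_I m N (c - K * (r : ℚ)) := by
  obtain ⟨s, a, b, h1, h2, h3⟩ := S_SAT_den m c
  rw [pow_zero, one_mul] at h3
  have h4 : IsCoprime ((K * b : ℕ) : ℤ) ((m ^ (N + s) : ℕ) : ℤ) :=
    Nat.isCoprime_iff_coprime.2 (Nat.Coprime.pow_right _ (Nat.Coprime.mul_left hK h2))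
  obtain ⟨u, v, huv⟩ := h4
  refine ⟨⟨((u * a : ℤ) : ℚ) * ((m : ℚ)⁻¹) ^ s, S_SAT_frac m _ s⟩, v * a, b, h1, h2, ?_⟩
  have hm0 : (m : ℚ) ≠ 0 := by exact_mod_cast (by omega : m ≠ 0)
  have h5 : (u : ℚ) * (K * b) + v * (m : ℚ) ^ (N + s) = 1 := by exact_mod_cast huv
  apply mul_left_cancel₀ (pow_ne_zero s hm0)
  push_cast
  have h6 : (m : ℚ) ^ s * ((m : ℚ)⁻¹) ^ s = 1 := by
    rw [← mul_pow, mul_inv_cancel₀ hm0, one_pow]
  calc (m : ℚ) ^ s * ((c - K * (u * a * (m : ℚ)⁻¹ ^ s)) * b)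
      = (m : ℚ) ^ s * c * b - K * u * a * b * ((m : ℚ) ^ s * (m : ℚ)⁻¹ ^ s) := by ring
    _ = a * (1 - u * (K * b)) := by rw [h3, h6]; ring
    _ = a * (v * (m : ℚ) ^ (N + s)) := by rw [← h5]; ring
    _ = (m : ℚ) ^ s * ((m : ℚ) ^ N * (v * a)) := by rw [pow_add]; ring

/-- integers modulo `K` -/
theorem S_SAT_mod (hZI : S_ZI_stmt) (m K : ℕ) (hm : 1 ≤ m) (hK : K.Coprime m) (x : ZI m) :
    ∃ (a : ℤ) (r : ZI m), (x : ℚ) - a = K * (r : ℚ) := by
  obtain ⟨t, c, hc⟩ := S_SAT_repr hZI m hm x x.2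
  have h4 : IsCoprime ((K : ℕ) : ℤ) ((m ^ t : ℕ) : ℤ) :=
    Nat.isCoprime_iff_coprime.2 (Nat.Coprime.pow_right _ hK)
  obtain ⟨u, v, huv⟩ := h4
  refine ⟨v * c, ⟨((c * u : ℤ) : ℚ) * ((m : ℚ)⁻¹) ^ t, S_SAT_frac m _ t⟩, ?_⟩
  have hm0 : (m : ℚ) ≠ 0 := by exact_mod_cast (by omega : m ≠ 0)
  have h5 : (u : ℚ) * K + v * (m : ℚ) ^ t = 1 := by exact_mod_cast huv
  apply mul_left_cancel₀ (pow_ne_zero t hm0)
  push_cast
  have h6 : (m : ℚ) ^ t * ((m : ℚ)⁻¹) ^ t = 1 := by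
    rw [← mul_pow, mul_inv_cancel₀ hm0, one_pow]
  calc (m : ℚ) ^ t * ((x : ℚ) - v * c) = (x : ℚ) * (m : ℚ) ^ t - v * (m : ℚ) ^ t * c := by ring
    _ = c * (1 - v * (m : ℚ) ^ t) := by rw [hc]; ring
    _ = c * (u * K) := by rw [← h5]; ring
    _ = K * (c * u) * ((m : ℚ) ^ t * (m : ℚ)⁻¹ ^ t) := by rw [h6]; ring
    _ = (m : ℚ) ^ t * (K * (c * u * (m : ℚ)⁻¹ ^ t)) := by ring

/-- an integer divisible by `K` in `ℤ[1/m]` is divisible by `K` -/
theorem S_SAT_dvd (hZI : S_ZI_stmt) (m K : ℕ) (hm : 1 ≤ m) (hK : K.Coprime m) (z : ℤ) (r : ZI m)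
    (h : (z : ℚ) = K * (r : ℚ)) : (K : ℤ) ∣ z := by
  obtain ⟨t, c, hc⟩ := S_SAT_repr hZI m hm r r.2
  have h1 : z * (m : ℤ) ^ t = K * c := by
    have h2 : (z : ℚ) * (m : ℚ) ^ t = K * c := by rw [h, ← hc]; ring
    exact_mod_cast h2
  have h3 : IsCoprime (K : ℤ) ((m : ℤ) ^ t) :=
    (Nat.isCoprime_iff_coprime.2 hK).pow_right
  exact h3.dvd_of_dvd_mul_right ⟨c, h1⟩

/-! ### matrices over the rational numbers of determinant one are products of transvections -/

section mat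

variable {n : ℕ}

theorem S_SAT_tv (i j : Fin n) (c : ℚ) (v : Fin n → ℚ) :
    (Matrix.transvection i j c) *ᵥ v = fun l => if l = i then v i + c * v j else v l := by
  funext l
  rw [Matrix.transvection, Matrix.add_mulVec, Matrix.one_mulVec, Pi.add_apply]
  by_cases h : l = i
  · subst h
    rw [if_pos rfl]
    congr 1
    simp [Matrix.mulVec, dotProduct, Matrix.single_apply]
  · rw [if_neg h]
    have h0 : (Matrix.single i j c *ᵥ v) l = 0 := by
      simp only [Matrix.mulVec, dotProduct, Matrix.single_apply]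
      refine Finset.sum_eq_zero fun k _ => ?_
      rw [if_neg (fun hh => h hh.1.symm), zero_mul]
    rw [h0, add_zero]

theorem S_SAT_d2 (i j : Fin n) (h : i ≠ j) (u : ℚ) (hu : u ≠ 0) :
    Matrix.diagonal (fun l => if l = i then u else if l = j then u⁻¹ else 1) =
      Matrix.transvection i j u * Matrix.transvection j i (-u⁻¹) * Matrix.transvection i j (u - 1) *
        Matrix.transvection j i 1 * Matrix.transvection i j (-1) := by
  apply Matrix.mulVec_injective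
  funext v
  rw [← Matrix.mulVec_mulVec, ← Matrix.mulVec_mulVec, ← Matrix.mulVec_mulVec, ← Matrix.mulVec_mulVec,
    S_SAT_tv, S_SAT_tv, S_SAT_tv, S_SAT_tv, S_SAT_tv]
  funext l
  rw [Matrix.mulVec_diagonal]
  have hji : j ≠ i := h.symm
  by_cases hi : l = i
  · subst hi
    simp only [if_true, if_neg h, if_neg hji]
    field_simp
    ring
  · by_cases hj : l = j
    · subst hj
      simp only [if_true, if_neg h, if_neg hji]
      field_simp
      ring
    · simp only [if_neg hi, if_neg hj, one_mul]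

theorem S_SAT_gen (i₀ : Fin n) (Q : Matrix (Fin n) (Fin n) ℚ → Prop) (h1 : Q 1)
    (ht : ∀ i j, i ≠ j → ∀ c, Q (Matrix.transvection i j c)) (hmul : ∀ A B, Q A → Q B → Q (A * B))
    (M : Matrix (Fin n) (Fin n) ℚ) (hM : M.det = 1) : Q M := by
  refine Matrix.diagonal_transvection_induction Q M ?_ (fun t => ht t.i t.j t.hij t.c) hmul
  intro D hD
  rw [hM, Matrix.det_diagonal] at hD
  have hD0 : ∀ i, D i ≠ 0 := by
    intro i h0
    rw [Finset.prod_eq_zero (Finset.mem_univ i) h0] at hD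
    exact zero_ne_one hD
  have key : ∀ s : Finset (Fin n), i₀ ∉ s →
      Q (Matrix.diagonal (fun i => if i = i₀ then (∏ j ∈ s, D j)⁻¹ else if i ∈ s then D i else 1)) := by
    intro s
    induction s using Finset.induction_on with
    | empty =>
      intro _
      have h2 : (fun i : Fin n => if i = i₀ then (∏ j ∈ (∅ : Finset (Fin n)), D j)⁻¹ else
          if i ∈ (∅ : Finset (Fin n)) then D i else 1) = fun _ => 1 := by
        funext i
        rw [Finset.prod_empty, inv_one, if_neg (Finset.notMem_empty i), ite_self]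
      rw [h2, Matrix.diagonal_one]
      exact h1
    | insert a s ha ih =>
      intro hi
      rw [Finset.mem_insert, not_or] at hi
      have h2 := ih hi.2
      have h3 : Q (Matrix.diagonal (fun l => if l = a then D a else if l = i₀ then (D a)⁻¹ else 1)) := by
        have hne : a ≠ i₀ := fun h => hi.1 h.symm
        rw [S_SAT_d2 a i₀ hne (D a) (hD0 a)]
        exact hmul _ _ (hmul _ _ (hmul _ _ (hmul _ _ (ht _ _ hne _) (ht _ _ hne.symm _))
          (ht _ _ hne _)) (ht _ _ hne.symm _)) (ht _ _ hne _)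
      have h4 := hmul _ _ h2 h3
      rw [Matrix.diagonal_mul_diagonal] at h4
      have h5 : (fun i => (if i = i₀ then (∏ j ∈ s, D j)⁻¹ else if i ∈ s then D i else 1) *
          (if i = a then D a else if i = i₀ then (D a)⁻¹ else 1)) =
          fun i => if i = i₀ then (∏ j ∈ insert a s, D j)⁻¹ else if i ∈ insert a s then D i else 1 := by
        funext i
        by_cases hi0 : i = i₀
        · subst hi0
          rw [if_pos rfl, if_pos rfl, if_neg hi.1, if_pos rfl, Finset.prod_insert ha, mul_inv, mul_comm]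
        · rw [if_neg hi0, if_neg hi0, if_neg hi0]
          by_cases hia : i = a
          · subst hia
            rw [if_neg ha, if_pos rfl, if_pos (Finset.mem_insert_self _ _), one_mul]
          · rw [if_neg hia, mul_one]
            by_cases his : i ∈ s
            · rw [if_pos his, if_pos (Finset.mem_insert_of_mem his)]
            · rw [if_neg his, if_neg (fun hh => (Finset.mem_insert.1 hh).elim hia his)]
      rw [h5] at h4
      exact h4
  have h6 := key (Finset.univ.erase i₀) (Finset.notMem_erase i₀ _)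
  have h7 : (fun i => if i = i₀ then (∏ j ∈ Finset.univ.erase i₀, D j)⁻¹ else
      if i ∈ Finset.univ.erase i₀ then D i else 1) = D := by
    funext i
    by_cases hi0 : i = i₀
    · subst hi0
      rw [if_pos rfl]
      rw [← Finset.mul_prod_erase Finset.univ D (Finset.mem_univ i)] at hD
      exact (eq_inv_of_mul_eq_one_left hD).symm
    · rw [if_neg hi0, if_pos (Finset.mem_erase.2 ⟨hi0, Finset.mem_univ i⟩)]
  rw [h7] at h6
  exact h6

/-! ### small matrices -/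

/-- all entries are small -/
def S_SAT_J (m N : ℕ) (A : Matrix (Fin n) (Fin n) ℚ) : Prop := ∀ i j, S_SAT_I m N (A i j)

theorem S_SAT_Jmul {m N M : ℕ} {A B : Matrix (Fin n) (Fin n) ℚ} (h : S_SAT_J m N A)
    (h' : S_SAT_J m M B) : S_SAT_J m (N + M) (A * B) := by
  intro i j
  rw [Matrix.mul_apply]
  exact S_SAT_sum _ _ fun k _ => S_SAT_mul (h i k) (h' k j)

theorem S_SAT_Jadd {m N : ℕ} {A B : Matrix (Fin n) (Fin n) ℚ} (h : S_SAT_J m N A)
    (h' : S_SAT_J m N B) : S_SAT_J m N (A + B) := fun i j => S_SAT_add (h i j) (h' i j)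

theorem S_SAT_Jden (m : ℕ) (A : Matrix (Fin n) (Fin n) ℚ) : ∃ s : ℕ, S_SAT_J m 0 ((m : ℚ) ^ s • A) := by
  have h : ∀ i j, ∃ s : ℕ, S_SAT_I m 0 ((m : ℚ) ^ s * A i j) := fun i j => S_SAT_den m (A i j)
  choose s hs using h
  refine ⟨∑ i, ∑ j, s i j, fun i j => ?_⟩
  have h1 : s i j ≤ ∑ i, ∑ j, s i j :=
    (Finset.single_le_sum (f := fun j => s i j) (fun _ _ => Nat.zero_le _) (Finset.mem_univ j)).trans
      (Finset.single_le_sum (f := fun i => ∑ j, s i j) (fun _ _ => Nat.zero_le _) (Finset.mem_univ i))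
  obtain ⟨r, hr⟩ := Nat.exists_eq_add_of_le h1
  rw [Matrix.smul_apply, smul_eq_mul, hr, pow_add, mul_comm ((m : ℚ) ^ s i j), mul_assoc]
  have h2 : S_SAT_I m 0 ((m : ℚ) ^ r) := ⟨(m : ℤ) ^ r, 1, le_rfl, Nat.coprime_one_left m, by
    push_cast; ring⟩
  exact S_SAT_mul h2 (hs i j)

/-- the elementary matrix -/
def S_SAT_x {m : ℕ} (i j : Fin n) (h : i ≠ j) (a : ZI m) : SLI n m :=
  ⟨Matrix.transvection i j a, Matrix.det_transvection_of_ne i j h a⟩

theorem S_SAT_rat_x {m : ℕ} (i j : Fin n) (h : i ≠ j) (a : ZI m) :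
    ratM (S_SAT_x i j h a) = Matrix.transvection i j (a : ℚ) := by
  ext k l
  simp only [ratM, S_SAT_x, Matrix.transvection, Matrix.map_apply, Matrix.add_apply, Matrix.one_apply,
    Matrix.single_apply]
  push_cast
  congr 1
  · split_ifs <;> rfl
  · split_ifs <;> rfl

theorem S_SAT_rat_mul {m : ℕ} (x y : SLI n m) : ratM (x * y) = ratM x * ratM y := by
  ext k l
  simp only [ratM, Matrix.map_apply, Matrix.SpecialLinearGroup.coe_mul, Matrix.mul_apply]
  push_cast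
  rfl

theorem S_SAT_rat_one {m : ℕ} : ratM (1 : SLI n m) = 1 := by
  ext k l
  simp only [ratM, Matrix.map_apply, Matrix.SpecialLinearGroup.coe_one, Matrix.one_apply]
  split_ifs <;> rfl

theorem S_SAT_x_inv {m : ℕ} (i j : Fin n) (h : i ≠ j) (a : ZI m) :
    (S_SAT_x i j h a)⁻¹ = S_SAT_x i j h (-a) := by
  rw [inv_eq_iff_mul_eq_one]
  apply Subtype.ext
  change Matrix.transvection i j a * Matrix.transvection i j (-a) = 1
  rw [Matrix.transvection_mul_transvection_same i j h, add_neg_cancel, Matrix.transvection_zero]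

theorem S_SAT_rat_inj {m : ℕ} {x y : SLI n m} (h : ratM x = ratM y) : x = y := by
  apply Subtype.ext
  ext i j
  have h1 := congrFun (congrFun h i) j
  exact h1

/-- approximation of rational matrices by elements of the elementary group of level `K` -/
theorem S_SAT_main (i₀ : Fin n) (m K : ℕ) (hm : 1 ≤ m) (hK : K.Coprime m) (H : Subgroup (SLI n m))
    (hH : ∀ (i j : Fin n) (h : i ≠ j) (a : ZI m), S_SAT_x i j h ((K : ZI m) * a) ∈ H)
    (M : Matrix (Fin n) (Fin n) ℚ) (hM : M.det = 1) (N : ℕ) :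
    ∃ e ∈ H, S_SAT_J m N (M * ratM e⁻¹ - 1) := by
  have h0 : ∀ N, ∃ e ∈ H, S_SAT_J m N (M * ratM e⁻¹ - 1) := by
    refine S_SAT_gen i₀ (fun A => ∀ N, ∃ e ∈ H, S_SAT_J m N (A * ratM e⁻¹ - 1)) ?_ ?_ ?_ M hM
    · intro N
      refine ⟨1, H.one_mem, ?_⟩
      rw [inv_one, S_SAT_rat_one, mul_one, sub_self]
      exact fun i j => S_SAT_zero m N
    · intro i j hij c N
      obtain ⟨r, hr⟩ := S_SAT_appr m K hm hK c N
      refine ⟨S_SAT_x i j hij ((K : ZI m) * r), hH i j hij r, ?_⟩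
      rw [S_SAT_x_inv, S_SAT_rat_x, Matrix.transvection_mul_transvection_same i j hij]
      intro k l
      rw [Matrix.transvection, add_sub_cancel_left, Matrix.single_apply]
      split_ifs with hh
      · have h2 : (c + ((-((K : ZI m) * r) : ZI m) : ℚ)) = c - K * (r : ℚ) := by
          push_cast
          ring
        rw [h2]
        exact hr
      · exact S_SAT_zero m N
    · intro A B hA hB N
      obtain ⟨e, he, he2⟩ := hA N
      obtain ⟨s₁, hs₁⟩ := S_SAT_Jden m A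
      obtain ⟨s₂, hs₂⟩ := S_SAT_Jden m (ratM e⁻¹)
      obtain ⟨e', he', he2'⟩ := hB (N + (s₁ + s₂))
      refine ⟨e * e', H.mul_mem he he', ?_⟩
      have h2 : A * B * ratM (e * e')⁻¹ - 1 =
          A * (B * ratM e'⁻¹ - 1) * ratM e⁻¹ + (A * ratM e⁻¹ - 1) := by
        rw [_root_.mul_inv_rev, S_SAT_rat_mul]
        noncomm_ring
      rw [h2]
      refine S_SAT_Jadd ?_ he2
      intro k l
      apply S_SAT_cancel hm (s := s₁ + s₂)
      have h3 := S_SAT_Jmul (S_SAT_Jmul hs₁ he2') hs₂ k l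
      have h4 : (m : ℚ) ^ s₁ • A * (B * ratM e'⁻¹ - 1) * (m : ℚ) ^ s₂ • ratM e⁻¹ =
          (m : ℚ) ^ (s₁ + s₂) • (A * (B * ratM e'⁻¹ - 1) * ratM e⁻¹) := by
        rw [Matrix.mul_smul, Matrix.smul_mul, Matrix.smul_mul, smul_smul, pow_add, mul_comm ((m : ℚ) ^ s₂)]
      rw [h4, Matrix.smul_apply, smul_eq_mul, zero_add, add_zero] at h3
      exact h3
  exact h0 N

/-- the reduction modulo `K` -/
noncomputable def S_SAT_pi (n m K : ℕ) :
    SLI n m →* SpecialLinearGroup (Fin n) (ZI m ⧸ Ideal.span {(K : ZI m)}) :=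
  SpecialLinearGroup.map (Ideal.Quotient.mk (Ideal.span {(K : ZI m)}))

theorem S_SAT_pi_eq {m K : ℕ} (x y : SLI n m) : S_SAT_pi n m K x = S_SAT_pi n m K y ↔
    ∀ i j, (K : ZI m) ∣ (x : Matrix (Fin n) (Fin n) (ZI m)) i j -
      (y : Matrix (Fin n) (Fin n) (ZI m)) i j := by
  constructor
  · intro h i j
    have h1 := congrFun (congrFun (congrArg Subtype.val h) i) j
    exact Ideal.mem_span_singleton.1 (Ideal.Quotient.eq.1 h1)
  · intro h
    ext i j
    exact Ideal.Quotient.eq.2 (Ideal.mem_span_singleton.2 (h i j))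

theorem S_SAT_det {m : ℕ} (x : SLI n m) : (ratM x).det = 1 := by
  have h1 : ratM x = (algebraMap (ZI m) ℚ).mapMatrix (x : Matrix (Fin n) (Fin n) (ZI m)) := rfl
  rw [h1, ← RingHom.map_det, x.2, map_one]

end mat

theorem S_SAT (hZI : S_ZI_stmt) (hFIN : M_FIN_stmt) (hLSA : LSA_stmt) : S_SAT_stmt := by
  intro n hn m hm Δ hfi hden k hk1 hkm hEl
  obtain ⟨M, hM1, hM⟩ := hFIN n hn (Δ.comap (incI n m)) hfi
  obtain ⟨t, kb, ka, hMk, hkb, hka, hka1⟩ := S_SAT_split m M hM1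
  obtain ⟨K, hKdef⟩ : ∃ K, K = k * ka := ⟨_, rfl⟩
  have hK : K.Coprime m := by rw [hKdef]; exact Nat.Coprime.mul_left hkm hka
  have hK1 : 1 ≤ K := by rw [hKdef]; exact Nat.mul_pos hk1 hka1
  have hH : ∀ (i j : Fin n) (h : i ≠ j) (a : ZI m), S_SAT_x i j h ((K : ZI m) * a) ∈
      Δ ⊓ (S_SAT_pi n m K).ker := by
    intro i j h a
    refine ⟨?_, ?_⟩
    · refine hEl _ i j ((ka : ZI m) * a) h ?_
      have h2 : (k : ZI m) * ((ka : ZI m) * a) = (K : ZI m) * a := by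
        rw [hKdef]; push_cast; ring
      rw [h2]
      rfl
    · change S_SAT_x i j h ((K : ZI m) * a) ∈ (S_SAT_pi n m K).ker
      rw [MonoidHom.mem_ker, ← map_one (S_SAT_pi n m K), S_SAT_pi_eq]
      intro k' l'
      have h3 : ((S_SAT_x i j h ((K : ZI m) * a) : SLI n m) : Matrix (Fin n) (Fin n) (ZI m)) =
        Matrix.transvection i j ((K : ZI m) * a) := rfl
      rw [h3, Matrix.SpecialLinearGroup.coe_one, Matrix.transvection, Matrix.add_apply,
        add_sub_cancel_left, Matrix.single_apply]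
      split_ifs
      · exact Dvd.intro _ rfl
      · exact dvd_zero _
  rw [eq_top_iff]
  intro x _
  -- an element of `Δ` congruent to `x`
  have hmod := fun i j => S_SAT_mod hZI m K hm hK ((x : Matrix (Fin n) (Fin n) (ZI m)) i j)
  choose a r har using hmod
  have har' : ∀ i j, (K : ZI m) ∣ (x : Matrix (Fin n) (Fin n) (ZI m)) i j - ((a i j : ℤ) : ZI m) := by
    intro i j
    refine ⟨r i j, Subtype.ext ?_⟩
    have h1 := har i j
    push_cast
    exact h1
  have hdet : (K : ℤ) ∣ (Matrix.of a).det - 1 := by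
    have h1 : ((Ideal.Quotient.mk (Ideal.span {(K : ZI m)})).comp (Int.castRingHom (ZI m)))
        (Matrix.of a).det = 1 := by
      rw [RingHom.map_det]
      have h2 : ((Ideal.Quotient.mk (Ideal.span {(K : ZI m)})).comp
          (Int.castRingHom (ZI m))).mapMatrix (Matrix.of a) =
          (Ideal.Quotient.mk (Ideal.span {(K : ZI m)})).mapMatrix
            (x : Matrix (Fin n) (Fin n) (ZI m)) := by
        ext i j
        have h3 : (Ideal.Quotient.mk (Ideal.span {(K : ZI m)})) ((x : Matrix (Fin n) (Fin n) (ZI m)) i j) =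
            (Ideal.Quotient.mk (Ideal.span {(K : ZI m)})) ((a i j : ℤ) : ZI m) :=
          Ideal.Quotient.eq.2 (Ideal.mem_span_singleton.2 (har' i j))
        exact h3.symm
      rw [h2, ← RingHom.map_det, x.2, map_one]
    have h4 : (K : ZI m) ∣ (((Matrix.of a).det : ℤ) : ZI m) - 1 := by
      apply Ideal.mem_span_singleton.1
      apply Ideal.Quotient.eq.1
      rw [map_one]
      exact h1
    obtain ⟨r', hr'⟩ := h4
    clear h1
    generalize (Matrix.of a).det = D at hr' ⊢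
    refine S_SAT_dvd hZI m K hm hK _ r' ?_
    have h5 := congrArg (Subtype.val) hr'
    push_cast at h5 ⊢
    exact h5
  obtain ⟨γ, hγ⟩ := hLSA n K (by omega) (Matrix.of a) hdet
  obtain ⟨δ, hδ, hδγ⟩ := hden K hK1 hK γ
  have hpi : S_SAT_pi n m K x = S_SAT_pi n m K δ := by
    rw [S_SAT_pi_eq]
    intro i j
    have h1 := har' i j
    have h2 : (K : ZI m) ∣ (((γ : Matrix (Fin n) (Fin n) ℤ) i j : ℤ) : ZI m) - ((a i j : ℤ) : ZI m) := by
      obtain ⟨c, hc⟩ := hγ i j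
      refine ⟨(c : ZI m), ?_⟩
      have h3 : (γ : Matrix (Fin n) (Fin n) ℤ) i j - a i j = K * c := hc
      have h4 := congrArg (fun z : ℤ => (z : ZI m)) h3
      push_cast at h4
      exact h4
    have h3 : (K : ZI m) ∣ (δ : Matrix (Fin n) (Fin n) (ZI m)) i j -
        (((γ : Matrix (Fin n) (Fin n) ℤ) i j : ℤ) : ZI m) := by
      obtain ⟨c, hc⟩ := hδγ i j
      refine ⟨c, Subtype.ext ?_⟩
      push_cast
      exact hc
    have h4 : (x : Matrix (Fin n) (Fin n) (ZI m)) i j - (δ : Matrix (Fin n) (Fin n) (ZI m)) i j =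
        ((x : Matrix (Fin n) (Fin n) (ZI m)) i j - ((a i j : ℤ) : ZI m)) -
        ((((γ : Matrix (Fin n) (Fin n) ℤ) i j : ℤ) : ZI m) - ((a i j : ℤ) : ZI m)) -
        ((δ : Matrix (Fin n) (Fin n) (ZI m)) i j -
          (((γ : Matrix (Fin n) (Fin n) ℤ) i j : ℤ) : ZI m)) := by ring
    rw [h4]
    exact dvd_sub (dvd_sub h1 h2) h3
  -- approximation
  obtain ⟨e, he, hsm⟩ := S_SAT_main (⟨0, by omega⟩ : Fin n) m K hm hK _ hH (ratM (δ⁻¹ * x))
    (S_SAT_det _) t
  rw [← S_SAT_rat_mul] at hsm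
  obtain ⟨s, hs⟩ : ∃ s, s = δ⁻¹ * x * e⁻¹ := ⟨_, rfl⟩
  rw [← hs] at hsm
  have hspi : S_SAT_pi n m K s = S_SAT_pi n m K 1 := by
    rw [hs, map_mul, map_mul, map_inv, map_inv, hpi, MonoidHom.mem_ker.1 he.2, inv_mul_cancel,
      inv_one, mul_one, map_one]
  rw [S_SAT_pi_eq] at hspi
  -- `s` is integral
  have hone : ∀ i j : Fin n, (((1 : Matrix (Fin n) (Fin n) (ZI m)) i j : ZI m) : ℚ) =
      (1 : Matrix (Fin n) (Fin n) ℚ) i j := by
    intro i j
    rw [Matrix.one_apply, Matrix.one_apply]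
    split_ifs <;> rfl
  have hint : ∀ i j, ∃ b : ℤ, ratM s i j - (1 : Matrix (Fin n) (Fin n) ℚ) i j = (m : ℚ) ^ t * b := by
    intro i j
    refine S_SAT_int hZI m hm t _ ?_ (hsm i j)
    rw [← hone i j]
    exact ((s : Matrix (Fin n) (Fin n) (ZI m)) i j - (1 : Matrix (Fin n) (Fin n) (ZI m)) i j).2
  choose b hb using hint
  obtain ⟨B, hB⟩ : ∃ B : Matrix (Fin n) (Fin n) ℤ, B = 1 + (m : ℤ) ^ t • Matrix.of b := ⟨_, rfl⟩
  have hBs : (Int.castRingHom (ZI m)).mapMatrix B = (s : Matrix (Fin n) (Fin n) (ZI m)) := by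
    ext i j
    have h1 := hb i j
    have h2 : B i j = (1 : Matrix (Fin n) (Fin n) ℤ) i j + (m : ℤ) ^ t * b i j := by
      rw [hB]; rfl
    have h3 : ((1 : Matrix (Fin n) (Fin n) ℤ) i j : ℚ) = (1 : Matrix (Fin n) (Fin n) ℚ) i j := by
      rw [Matrix.one_apply, Matrix.one_apply]
      split_ifs <;> simp
    have h4 : (((Int.castRingHom (ZI m)).mapMatrix B i j : ZI m) : ℚ) = (B i j : ℚ) := by
      change (((B i j : ℤ) : ZI m) : ℚ) = (B i j : ℚ)
      push_cast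
      rfl
    rw [h4, h2]
    push_cast
    rw [h3, ← h1]
    change (1 : Matrix (Fin n) (Fin n) ℚ) i j + (ratM s i j - (1 : Matrix (Fin n) (Fin n) ℚ) i j) =
      ratM s i j
    ring
  have hBdet : B.det = 1 := by
    have h1 : (Int.castRingHom (ZI m)) B.det = 1 := by
      rw [RingHom.map_det, hBs, s.2]
    have h2 : (((B.det : ℤ) : ZI m) : ℚ) = ((1 : ZI m) : ℚ) := congrArg Subtype.val h1
    push_cast at h2
    exact_mod_cast h2
  have hBK : ∀ i j, (K : ℤ) ∣ (m : ℤ) ^ t * b i j := by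
    intro i j
    obtain ⟨c, hc⟩ := hspi i j
    refine S_SAT_dvd hZI m K hm hK _ c ?_
    have h1 := congrArg (Subtype.val) hc
    push_cast at h1 ⊢
    rw [← h1, ← hb i j, Matrix.SpecialLinearGroup.coe_one, hone i j]
    rfl
  have hBM : ∀ i j, (M : ℤ) ∣ (m : ℤ) ^ t * b i j := by
    intro i j
    have h1 : (ka : ℤ) ∣ (m : ℤ) ^ t * b i j :=
      (Int.natCast_dvd_natCast.2 (by rw [hKdef]; exact Dvd.intro_left _ rfl)).trans (hBK i j)
    have h2 : (kb : ℤ) ∣ (m : ℤ) ^ t * b i j := by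
      refine Dvd.dvd.mul_right ?_ _
      exact_mod_cast Int.natCast_dvd_natCast.2 hkb
    have h3 : IsCoprime (kb : ℤ) (ka : ℤ) := by
      rw [Nat.isCoprime_iff_coprime]
      exact Nat.Coprime.symm (Nat.Coprime.coprime_dvd_right hkb (Nat.Coprime.pow_right t hka))
    rw [hMk]
    push_cast
    exact h3.mul_dvd h2 h1
  obtain ⟨γ', hγB⟩ : ∃ γ' : SLZ n, (γ' : Matrix (Fin n) (Fin n) ℤ) = B := ⟨⟨B, hBdet⟩, rfl⟩
  have hγ' : γ' ∈ Pool.Agent.H48SL.Cong (Fin n) M := by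
    rw [Pool.Agent.H48SL.mem_Cong]
    choose c hc using hBM
    refine ⟨Matrix.of c, ?_⟩
    rw [hγB, hB]
    ext i j
    simp only [Matrix.add_apply, Matrix.smul_apply, Matrix.of_apply, smul_eq_mul]
    rw [hc i j]
  have hin : incI n m γ' = s := by
    apply Subtype.ext
    rw [← hBs, ← hγB]
    rfl
  have hsΔ : s ∈ Δ := by
    rw [← hin]
    exact hM hγ'
  have hfin : x = δ * (s * e) := by
    rw [hs]
    group
  rw [hfin]
  exact Δ.mul_mem hδ (Δ.mul_mem hsΔ he.1)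

end Pool.Agent.PR
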