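import Pool.Agent.helper48.PR.SpecL
set_option autoImplicit false
namespace Pool.Agent.PR

open Matrix

/-- the homomorphism `l ↦ qM (f l)` -/
noncomputable def LEMB_rho {n q : ℕ} [Fact q.Prime] {Λ : Type} [Group Λ]
    (f : Λ →* GL (Fin n) ℤ_[q]) : Λ →* Matrix (Fin n) (Fin n) ℚ_[q] :=
  (((PadicInt.Coe.ringHom (p := q)).mapMatrix : Matrix (Fin n) (Fin n) ℤ_[q] →+*
    Matrix (Fin n) (Fin n) ℚ_[q]) : Matrix (Fin n) (Fin n) ℤ_[q] →*
    Matrix (Fin n) (Fin n) ℚ_[q]).comp ((Units.coeHom _).comp f)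

theorem LEMB_rho_apply {n q : ℕ} [Fact q.Prime] {Λ : Type} [Group Λ]
    (f : Λ →* GL (Fin n) ℤ_[q]) (l : Λ) : LEMB_rho f l = qM (f l) := rfl

theorem LEMB_coe_inj {q : ℕ} [Fact q.Prime] :
    Function.Injective (PadicInt.Coe.ringHom (p := q)) := fun _ _ h => Subtype.ext h

theorem LEMB_qM_inj {n q : ℕ} [Fact q.Prime] {A B : GL (Fin n) ℤ_[q]} (h : qM A = qM B) :
    A = B := by
  apply Units.ext
  ext i j : 2
  have := congrFun (congrFun h i) j
  exact LEMB_coe_inj this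

/-- divisibility in all `ℤ_q` -/
theorem LEMB_dvd (m : ℕ) (D : ℤ)
    (h : ∀ q : Nat.Primes, ((m : ℕ) : ℤ_[(q : ℕ)]) ∣ ((D : ℤ) : ℤ_[(q : ℕ)])) : (m : ℤ) ∣ D := by
  rw [← Int.natAbs_dvd_natAbs, Int.natAbs_natCast, Nat.dvd_iff_prime_pow_dvd_dvd]
  intro p k hp hk
  have : Fact p.Prime := ⟨hp⟩
  have h1 : ((p ^ k : ℕ) : ℤ_[p]) ∣ ((D : ℤ) : ℤ_[p]) :=
    (Nat.cast_dvd_cast hk).trans (h ⟨p, hp⟩)
  have h2 : ‖((D : ℤ) : ℤ_[p])‖ ≤ (p : ℝ) ^ (-(k : ℤ)) := by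
    obtain ⟨c, hc⟩ := h1
    rw [hc, norm_mul, Nat.cast_pow, norm_pow, PadicInt.norm_p, _root_.zpow_neg, _root_.zpow_natCast, inv_pow]
    exact mul_le_of_le_one_right (by positivity) (PadicInt.norm_le_one c)
  rw [PadicInt.norm_int_le_pow_iff_dvd] at h2
  have h3 := Int.natAbs_dvd_natAbs.2 h2
  rw [Int.natAbs_pow, Int.natAbs_natCast] at h3
  exact h3

/-- the inclusion of `SL(n, ℤ)` in `GL(n, ℤ_q)` -/
noncomputable def LEMB_inc (n q : ℕ) [Fact q.Prime] : SLZ n →* GL (Fin n) ℤ_[q] :=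
  (Matrix.SpecialLinearGroup.toGL).comp (Matrix.SpecialLinearGroup.map (Int.castRingHom ℤ_[q]))

theorem LEMB_inc_apply (n q : ℕ) [Fact q.Prime] (γ : SLZ n) :
    ((LEMB_inc n q γ : GL (Fin n) ℤ_[q]) : Matrix (Fin n) (Fin n) ℤ_[q]) =
      (γ : Matrix (Fin n) (Fin n) ℤ).map (Int.castRingHom ℤ_[q]) := rfl

theorem LEMB_inc_inj (n q : ℕ) [Fact q.Prime] : Function.Injective (LEMB_inc n q) := by
  intro γ δ h
  apply Subtype.ext
  ext i j
  have h1 : ((LEMB_inc n q γ : GL (Fin n) ℤ_[q]) : Matrix (Fin n) (Fin n) ℤ_[q]) i j =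
      ((LEMB_inc n q δ : GL (Fin n) ℤ_[q]) : Matrix (Fin n) (Fin n) ℤ_[q]) i j := by rw [h]
  rw [LEMB_inc_apply, LEMB_inc_apply, Matrix.map_apply, Matrix.map_apply] at h1
  exact Int.cast_injective (α := ℤ_[q]) h1

theorem LEMB (hSPAN : LSPAN_stmt) (hINT : LINT_stmt) (hR1 : LR1_stmt) (hSPQ : LSPQ_stmt)
    (hLQ : LLQ_stmt) (hDET : LDET_stmt) (hFAI : LFAI_stmt) (hKEY : LKEY_stmt) : LEMB_stmt := by
  intro n hn Λ _ hfg hq hrf f hinf p A hA hrk
  have hspan : Submodule.span ℚ_[(p : ℕ)] (Set.range (LEMB_rho (f p))) = ⊤ :=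
    hSPAN n hn Λ hq f hinf p
  have htr : ∀ l, ∃ t : ℤ, (LEMB_rho (f p) l).trace = (t : ℚ_[(p : ℕ)]) := by
    intro l
    obtain ⟨t, ht⟩ := hINT n hn Λ hfg hq f hinf p l
    refine ⟨t, ?_⟩
    have := congrArg (PadicInt.Coe.ringHom (p := (p : ℕ))) ht
    rw [map_intCast] at this
    rw [← this]
    exact (AddMonoidHom.map_trace (PadicInt.Coe.ringHom (p := (p : ℕ)))
      (f p l : Matrix (Fin n) (Fin n) ℤ_[(p : ℕ)])).symm
  obtain ⟨x, y, r, hxy, hyx, hr⟩ := hR1 n ℚ ℚ_[(p : ℕ)] Λ (LEMB_rho (f p)) hspan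
    (fun l => by
      obtain ⟨t, ht⟩ := htr l
      exact ⟨t, by rw [ht]; simp⟩) A hA hrk
  have hrs : Submodule.span ℚ (Set.range r) = ⊤ :=
    hSPQ n ℚ ℚ_[(p : ℕ)] Λ (LEMB_rho (f p)) r x y hxy hyx hr hspan
  have hrt : ∀ l, ∃ t : ℤ, (r l).trace = (t : ℚ) := by
    intro l
    obtain ⟨t, ht⟩ := htr l
    refine ⟨t, ?_⟩
    rw [hr l, Matrix.trace_mul_cycle, hyx, Matrix.one_mul] at ht
    apply (algebraMap ℚ ℚ_[(p : ℕ)]).injective
    rw [map_intCast, ← ht]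
    exact AddMonoidHom.map_trace (algebraMap ℚ ℚ_[(p : ℕ)]) (r l)
  obtain ⟨x', y', R0, hxy', hyx', hR0⟩ := hLQ n Λ r hrs hrt
  set al : Matrix (Fin n) (Fin n) ℚ →+* Matrix (Fin n) (Fin n) ℚ_[(p : ℕ)] :=
    (algebraMap ℚ ℚ_[(p : ℕ)]).mapMatrix with hal
  have hXY : x * al x' * (al y' * y) = 1 := by
    rw [Matrix.mul_assoc, ← Matrix.mul_assoc (al x'), ← map_mul, hxy', map_one, Matrix.one_mul, hxy]
  have hYX : al y' * y * (x * al x') = 1 := by
    rw [Matrix.mul_assoc, ← Matrix.mul_assoc y, hyx, Matrix.one_mul, ← map_mul, hyx', map_one]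
  have hrho : ∀ l, qM (f p l) =
      x * al x' * (R0 l).map (Int.castRingHom ℚ_[(p : ℕ)]) * (al y' * y) := by
    intro l
    rw [← LEMB_rho_apply, hr l, hR0 l]
    have e1 : (x' * (R0 l).map (Int.castRingHom ℚ) * y').map (algebraMap ℚ ℚ_[(p : ℕ)]) =
        al x' * (R0 l).map (Int.castRingHom ℚ_[(p : ℕ)]) * al y' := by
      have e2 : al ((R0 l).map (Int.castRingHom ℚ)) = (R0 l).map (Int.castRingHom ℚ_[(p : ℕ)]) := by
        ext i j
        simp [hal]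
      change al _ = _
      rw [map_mul, map_mul, e2]
    rw [e1]
    simp only [Matrix.mul_assoc]
  have hdet : ∀ l, (R0 l).det = 1 := by
    intro l
    have h1 := hDET n hn Λ hq f hinf p l
    have h2 : (qM (f p l)).det = 1 := by
      have := congrArg (PadicInt.Coe.ringHom (p := (p : ℕ))) h1
      rw [map_one, RingHom.map_det] at this
      exact this
    rw [hrho l, Matrix.det_mul, Matrix.det_mul, mul_right_comm, ← Matrix.det_mul, hXY,
      Matrix.det_one, one_mul] at h2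
    have h3 : ((R0 l).map (Int.castRingHom ℚ_[(p : ℕ)])).det = (((R0 l).det : ℤ) : ℚ_[(p : ℕ)]) := by
      have := RingHom.map_det (Int.castRingHom ℚ_[(p : ℕ)]) (R0 l)
      exact this.symm
    rw [h3] at h2
    exact_mod_cast h2
  let R : Λ →* SLZ n :=
    { toFun := fun l => ⟨R0 l, hdet l⟩
      map_one' := Subtype.ext (map_one R0)
      map_mul' := fun a b => Subtype.ext (map_mul R0 a b) }
  have hRinj : Function.Injective R := by
    intro l l' h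
    have h0 : R0 l = R0 l' := congrArg Subtype.val h
    apply hFAI n hn Λ hfg hq hrf f hinf p
    apply LEMB_qM_inj
    rw [hrho l, hrho l', h0]
  have hΛ : Infinite Λ := by
    by_contra hfin
    rw [not_infinite_iff_finite] at hfin
    exact hinf p (Set.finite_range _)
  refine ⟨R, x * al x', al y' * y, hRinj, hXY, hYX, fun l => hrho l, ?_⟩
  intro m hm γ
  obtain ⟨l, hl⟩ := hKEY n hn Λ hq (fun q => (LEMB_inc n (q : ℕ)).comp R)
    (fun q => Set.infinite_range_of_injective ((LEMB_inc_inj n (q : ℕ)).comp hRinj))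
    (fun q => (γ : Matrix (Fin n) (Fin n) ℤ).map (Int.castRingHom ℤ_[(q : ℕ)]))
    (fun q => by
      have := RingHom.map_det (Int.castRingHom ℤ_[(q : ℕ)]) (γ : Matrix (Fin n) (Fin n) ℤ)
      rw [γ.2, map_one] at this
      exact this.symm) m hm
  refine ⟨l, fun i j => ?_⟩
  apply LEMB_dvd
  intro q
  have := hl q i j
  rw [MonoidHom.comp_apply, LEMB_inc_apply, Matrix.map_apply, Matrix.map_apply] at this
  rw [Int.cast_sub]
  exact this

end Pool.Agent.PR
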