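import Pool.Agent.helper5.PR.SpecK
set_option autoImplicit false
namespace Pool.Agent.PR

attribute [local instance] MvPolynomial.algebraMvPolynomial

theorem K_INT_root {E : Type} [Field E] [CharZero E] {d : ℕ} {u : Fin d → E}
    (hu : IsTranscendenceBasis ℚ u) (s : E) :
    ∃ P : Polynomial (MvPolynomial (Fin d) ℤ), P ≠ 0 ∧
      P.eval₂ ((MvPolynomial.aeval u : MvPolynomial (Fin d) ℤ →ₐ[ℤ] E) : _ →+* E) s = 0 := by
  have hZQ : Algebra.IsAlgebraic ℤ ℚ := IsLocalization.isAlgebraic ℚ (nonZeroDivisors ℤ)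
  let a1 : Algebra (MvPolynomial (Fin d) ℤ) E :=
    ((MvPolynomial.aeval u : MvPolynomial (Fin d) ℤ →ₐ[ℤ] E) : _ →+* E).toAlgebra
  let a2 : Algebra (MvPolynomial (Fin d) ℚ) E :=
    ((MvPolynomial.aeval u : MvPolynomial (Fin d) ℚ →ₐ[ℚ] E) : _ →+* E).toAlgebra
  have : IsScalarTower (MvPolynomial (Fin d) ℤ) (MvPolynomial (Fin d) ℚ) E := by
    refine IsScalarTower.of_algebraMap_eq' ?_
    refine MvPolynomial.ringHom_ext (fun r => ?_) (fun i => ?_)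
    · change (MvPolynomial.aeval u : MvPolynomial (Fin d) ℤ →ₐ[ℤ] E) (MvPolynomial.C r) =
        (MvPolynomial.aeval u : MvPolynomial (Fin d) ℚ →ₐ[ℚ] E)
          (MvPolynomial.map (algebraMap ℤ ℚ) (MvPolynomial.C r))
      simp
    · change (MvPolynomial.aeval u : MvPolynomial (Fin d) ℤ →ₐ[ℤ] E) (MvPolynomial.X i) =
        (MvPolynomial.aeval u : MvPolynomial (Fin d) ℚ →ₐ[ℚ] E)
          (MvPolynomial.map (algebraMap ℤ ℚ) (MvPolynomial.X i))
      simp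
  have h0 : IsAlgebraic (Algebra.adjoin ℚ (Set.range u)) s := hu.isAlgebraic.isAlgebraic s
  have h1 : IsAlgebraic (MvPolynomial (Fin d) ℚ) s := by
    have h := h0.ringHom_of_comp_eq (S := MvPolynomial (Fin d) ℚ) (B := E)
      ((hu.1.aevalEquiv.symm : _ ≃ₐ[ℚ] MvPolynomial (Fin d) ℚ) : _ →+* MvPolynomial (Fin d) ℚ)
      (RingHom.id E) hu.1.aevalEquiv.symm.injective (by
        ext x
        change (MvPolynomial.aeval u : MvPolynomial (Fin d) ℚ →ₐ[ℚ] E) (hu.1.aevalEquiv.symm x) = _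
        rw [← hu.1.algebraMap_aevalEquiv, AlgEquiv.apply_symm_apply]
        rfl)
    exact h
  have h2 : IsAlgebraic (MvPolynomial (Fin d) ℤ) s := h1.restrictScalars _
  obtain ⟨P, hP, hP0⟩ := h2
  exact ⟨P, hP, hP0⟩

/-- the specialisation of an integral polynomial at a point congruent to `β` modulo `ℓ` is a unit if the
value at `β` is prime to `ℓ` -/
theorem K_INT_unit (ℓ : ℕ) [Fact ℓ.Prime] {d : ℕ} (g : MvPolynomial (Fin d) ℤ) (β : Fin d → ℤ)
    (x : Fin d → ℤ_[ℓ]) (h : ¬ (ℓ : ℤ) ∣ MvPolynomial.eval β g) :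
    IsUnit (MvPolynomial.eval₂ (Int.castRingHom ℤ_[ℓ])
      (fun i => (β i : ℤ_[ℓ]) + (ℓ : ℤ_[ℓ]) * x i) g) := by
  by_contra hne
  have h1 : MvPolynomial.eval₂ (Int.castRingHom ℤ_[ℓ])
      (fun i => (β i : ℤ_[ℓ]) + (ℓ : ℤ_[ℓ]) * x i) g ∈ IsLocalRing.maximalIdeal ℤ_[ℓ] :=
    (IsLocalRing.mem_maximalIdeal _).2 hne
  rw [← PadicInt.ker_toZMod, RingHom.mem_ker, MvPolynomial.eval₂_comp_left] at h1
  have h2 : (PadicInt.toZMod.comp (Int.castRingHom ℤ_[ℓ])) = Int.castRingHom (ZMod ℓ) :=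
    RingHom.ext_int _ _
  have h3 : ((PadicInt.toZMod : ℤ_[ℓ] →+* ZMod ℓ) ∘ fun i => (β i : ℤ_[ℓ]) + (ℓ : ℤ_[ℓ]) * x i) =
      (Int.castRingHom (ZMod ℓ)) ∘ β := by
    funext i
    simp
  have h4 := MvPolynomial.eval₂_comp_left (Int.castRingHom (ZMod ℓ)) (RingHom.id ℤ) β g
  rw [RingHom.comp_id] at h4
  rw [h2, h3, ← h4] at h1
  apply h
  exact (ZMod.intCast_zmod_eq_zero_iff_dvd _ ℓ).1 h1

theorem K_INT : K_INT_stmt := by
  intro E _ _ d u hu S
  choose P hP hP0 using fun s : E => K_INT_root hu s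
  have hg : (∏ s ∈ S, (P s).leadingCoeff) ≠ 0 :=
    Finset.prod_ne_zero_iff.2 fun s _ => Polynomial.leadingCoeff_ne_zero.2 (hP s)
  obtain ⟨β, hβ⟩ : ∃ β : Fin d → ℤ, MvPolynomial.eval β (∏ s ∈ S, (P s).leadingCoeff) ≠ 0 := by
    by_contra hcon
    push Not at hcon
    exact hg (MvPolynomial.funext fun x => by rw [hcon x, map_zero])
  refine ⟨(MvPolynomial.eval β (∏ s ∈ S, (P s).leadingCoeff)).natAbs, β, Int.natAbs_ne_zero.2 hβ, ?_⟩
  intro ℓ _ hℓ x σ hσ s hs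
  have hdiv : ¬ (ℓ : ℤ) ∣ MvPolynomial.eval β (P s).leadingCoeff := by
    intro hd
    apply hℓ
    rw [map_prod]
    exact Int.natCast_dvd.1 (hd.trans (Finset.dvd_prod_of_mem _ hs))
  have hunit := K_INT_unit ℓ (P s).leadingCoeff β x hdiv
  set θ : MvPolynomial (Fin d) ℤ →+* ℤ_[ℓ] := MvPolynomial.eval₂Hom (Int.castRingHom ℤ_[ℓ])
      (fun i => (β i : ℤ_[ℓ]) + (ℓ : ℤ_[ℓ]) * x i) with hθ
  have hunit' : IsUnit (θ (P s).leadingCoeff) := hunit
  have hcomp : (algebraMap ℤ_[ℓ] (Om ℓ)).comp θ =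
      σ.comp ((MvPolynomial.aeval u : MvPolynomial (Fin d) ℤ →ₐ[ℤ] E) : _ →+* E) := by
    refine MvPolynomial.ringHom_ext (fun r => ?_) (fun i => ?_)
    · simp [hθ]
    · have := hσ i
      simp only [hθ, RingHom.comp_apply, MvPolynomial.coe_eval₂Hom, MvPolynomial.eval₂_X]
      rw [← this]
      simp
  have hroot : Polynomial.aeval (σ s) ((P s).map θ) = 0 := by
    rw [Polynomial.aeval_def, Polynomial.eval₂_map, hcomp]
    have := congrArg σ (hP0 s)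
    rw [map_zero, Polynomial.hom_eval₂] at this
    exact this
  have hlc : ((P s).map θ).leadingCoeff = θ (P s).leadingCoeff :=
    Polynomial.leadingCoeff_map_of_leadingCoeff_ne_zero θ hunit'.ne_zero
  have hint := isIntegral_leadingCoeff_smul ((P s).map θ) (σ s) hroot
  rw [hlc] at hint
  obtain ⟨w, hw⟩ := hunit'
  have h := hint.smul (((w⁻¹ : ℤ_[ℓ]ˣ)) : ℤ_[ℓ])
  rw [← hw, smul_smul, Units.inv_mul, one_smul] at h
  exact h

end Pool.Agent.PR
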