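import Pool.Agent.helper5.PR.SpecK
set_option autoImplicit false
namespace Pool.Agent.PR

open Matrix

theorem K_RAT_prime (N : ℕ) (hN : N ≠ 0) : ∃ ℓ : ℕ, ℓ.Prime ∧ ¬ ℓ ∣ N := by
  obtain ⟨p, hp, hpp⟩ := Nat.exists_infinite_primes (N + 1)
  exact ⟨p, hpp, fun h => by have := Nat.le_of_dvd (Nat.pos_of_ne_zero hN) h; omega⟩

theorem K_RAT (hAC : K_AC_stmt) (hEMB : K_EMB_stmt) (hQNR : K_QNR_stmt) (hBC : K_BC_stmt) :
    K_RAT_stmt := by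
  intro n hn Λ _ hfg hq E _ _ ρ hinf l₀
  by_contra hcon
  obtain ⟨S, hS, hbc⟩ := hBC n Λ hfg E ρ
  obtain ⟨-, hE2, hE3⟩ := hEMB E S
  have hmem : ∀ l, (ρ l : Matrix (Fin n) (Fin n) E).trace ∈ Algebra.adjoin ℤ (S : Set E) :=
    fun l => Subalgebra.sum_mem _ (fun i _ => hS l i i)
  have key : ∀ (ℓ : ℕ) [Fact ℓ.Prime] (σ : Algebra.adjoin ℤ (S : Set E) →+* Om ℓ),
      GoodEmb S ℓ σ → ∃ r : Λ →* GL (Fin n) (Om ℓ),
        (∀ l i j, IsIntegral ℤ_[ℓ] ((r l : Matrix (Fin n) (Fin n) (Om ℓ)) i j)) ∧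
        (Set.range r).Infinite ∧
        ∀ l, (r l : Matrix (Fin n) (Fin n) (Om ℓ)).trace = σ ⟨_, hmem l⟩ := by
    intro ℓ _ σ hσ
    obtain ⟨r, hr1, hr2⟩ := hbc (Om ℓ) σ hσ.1
    refine ⟨r, fun l i j => ?_, hr2 hinf, fun l => ?_⟩
    · rw [hr1 l i j (hS l i j)]
      exact hσ.2 _
    · have e : (⟨_, hmem l⟩ : Algebra.adjoin ℤ (S : Set E)) =
          ∑ i, (⟨(ρ l : Matrix (Fin n) (Fin n) E) i i, hS l i i⟩ : Algebra.adjoin ℤ (S : Set E)) := by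
        apply Subtype.ext
        rw [AddSubmonoidClass.coe_finsetSum]
        rfl
      rw [e, map_sum]
      exact Finset.sum_congr rfl fun i _ => hr1 l i i (hS l i i)
  have three : ∀ (ℓ : ℕ) [Fact ℓ.Prime] (σ₁ σ₂ σ₃ : Algebra.adjoin ℤ (S : Set E) →+* Om ℓ),
      GoodEmb S ℓ σ₁ → GoodEmb S ℓ σ₂ → GoodEmb S ℓ σ₃ →
      σ₁ ⟨_, hmem l₀⟩ ≠ σ₂ ⟨_, hmem l₀⟩ → σ₂ ⟨_, hmem l₀⟩ ≠ σ₃ ⟨_, hmem l₀⟩ →
      σ₁ ⟨_, hmem l₀⟩ ≠ σ₃ ⟨_, hmem l₀⟩ → False := by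
    intro ℓ _ σ₁ σ₂ σ₃ g1 g2 g3 h12 h23 h13
    obtain ⟨r1, i1, f1, t1⟩ := key ℓ σ₁ g1
    obtain ⟨r2, i2, f2, t2⟩ := key ℓ σ₂ g2
    obtain ⟨r3, i3, f3, t3⟩ := key ℓ σ₃ g3
    rcases (hAC ℓ n hn Λ hfg hq r1 r2 i1 i2 f1 f2).2 with h | h
    · exact h12 (by rw [← t1, ← t2]; exact h l₀)
    · rcases (hAC ℓ n hn Λ hfg hq r2 r3 i2 i3 f2 f3).2 with h' | h'
      · exact h23 (by rw [← t2, ← t3]; exact h' l₀)
      · apply h13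
        rw [← t1, ← t3, h l₀, h' l₀⁻¹, inv_inv]
  by_cases hal : IsAlgebraic ℚ (ρ l₀ : Matrix (Fin n) (Fin n) E).trace
  · obtain ⟨N, hN, hemb⟩ := hE3 ⟨_, hmem l₀⟩ hal
    have hint : IsIntegral ℚ (ρ l₀ : Matrix (Fin n) (Fin n) E).trace := hal.isIntegral
    set f := minpoly ℚ (ρ l₀ : Matrix (Fin n) (Fin n) E).trace with hf
    have hirr : Irreducible f := minpoly.irreducible hint
    have hmon : f.Monic := minpoly.monic hint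
    have hdeg0 : 0 < f.natDegree := minpoly.natDegree_pos hint
    have hdeg1 : f.natDegree ≠ 1 := by
      intro h1
      obtain ⟨q, hq⟩ := minpoly.natDegree_eq_one_iff.1 h1
      exact hcon ⟨q, hq.symm⟩
    rcases (show f.natDegree = 2 ∨ 2 < f.natDegree by omega) with h2 | h3
    · obtain ⟨ℓ, hℓ, hℓN, γ, hγ, hγr⟩ := hQNR f hmon hirr h2 N hN
      have : Fact ℓ.Prime := ⟨hℓ⟩
      obtain ⟨σ, hσ, hσc⟩ := hemb ℓ hℓN γ hγ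
      obtain ⟨r, i1, f1, t1⟩ := key ℓ σ hσ
      apply hγr
      rw [← hσc, ← t1]
      exact (hAC ℓ n hn Λ hfg hq r r i1 i1 f1 f1).1 l₀
    · obtain ⟨ℓ, hℓ, hℓN⟩ := K_RAT_prime N hN
      have : Fact ℓ.Prime := ⟨hℓ⟩
      have hcard : Fintype.card (f.rootSet (Om ℓ)) = f.natDegree :=
        Polynomial.card_rootSet_eq_natDegree hirr.separable (IsAlgClosed.splits _)
      rw [← hcard, Fintype.two_lt_card_iff] at h3
      obtain ⟨a, b, c, hab, hac, hbc'⟩ := h3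
      have ha := (Polynomial.mem_rootSet.1 a.2).2
      have hb := (Polynomial.mem_rootSet.1 b.2).2
      have hc := (Polynomial.mem_rootSet.1 c.2).2
      obtain ⟨σ₁, g1, e1⟩ := hemb ℓ hℓN a ha
      obtain ⟨σ₂, g2, e2⟩ := hemb ℓ hℓN b hb
      obtain ⟨σ₃, g3, e3⟩ := hemb ℓ hℓN c hc
      refine three ℓ σ₁ σ₂ σ₃ g1 g2 g3 ?_ ?_ ?_
      · rw [e1, e2]
        exact fun h => hab (Subtype.ext h)
      · rw [e2, e3]
        exact fun h => hbc' (Subtype.ext h)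
      · rw [e1, e3]
        exact fun h => hac (Subtype.ext h)
  · obtain ⟨N, hN, hemb⟩ := hE2 ⟨_, hmem l₀⟩ hal
    obtain ⟨ℓ, hℓ, hℓN⟩ := K_RAT_prime N hN
    have : Fact ℓ.Prime := ⟨hℓ⟩
    obtain ⟨σ₁, σ₂, σ₃, g1, g2, g3, h12, h23, h13⟩ := hemb ℓ hℓN
    exact three ℓ σ₁ σ₂ σ₃ g1 g2 g3 h12 h23 h13

end Pool.Agent.PR
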