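import Pool.Agent.helper17.PR.SpecN

/-!
# Project pr, module N_FIT: generalised eigenspaces are invariant
-/

set_option autoImplicit false

namespace Pool.Agent.PR

open Module

section

variable {K V Q : Type} [Field K] [AddCommGroup V] [Module K V] [Group Q]

/-- the action of the powers on an eigenvector -/
theorem N_FIT_pow (f : Module.End K V) (l m : K) (v : V) (h : f v = m • v) (N : ℕ) :
    ((f - l • (1 : Module.End K V)) ^ N) v = (m - l) ^ N • v := by
  have h1 : (f - l • (1 : Module.End K V)) v = (m - l) • v := by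
    rw [LinearMap.sub_apply, LinearMap.smul_apply, Module.End.one_apply, h, sub_smul]
  induction N with
  | zero => rw [pow_zero, pow_zero, Module.End.one_apply, one_smul]
  | succ N ih => rw [pow_succ, Module.End.mul_apply, h1, map_smul, ih, smul_smul, pow_succ, mul_comm]

/-- the character of an eigenvector is multiplicative -/
theorem N_FIT_mul (ρ : Q →* Module.End K V) (v₁ : V) (hv : v₁ ≠ 0) (χ : Q → K)
    (hχ : ∀ g, ρ g v₁ = χ g • v₁) (g h : Q) : χ (g * h) = χ g * χ h := by
  have h1 : χ (g * h) • v₁ = (χ g * χ h) • v₁ := by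
    rw [← hχ, map_mul, Module.End.mul_apply, hχ h, map_smul, hχ g, smul_smul, mul_comm]
  exact smul_left_injective K hv h1

/-- the character of an eigenvector is trivial on commutators -/
theorem N_FIT_comm (ρ : Q →* Module.End K V) (v₁ : V) (hv : v₁ ≠ 0) (χ : Q → K)
    (hχ : ∀ g, ρ g v₁ = χ g • v₁) (g h : Q) : χ (g * h * g⁻¹ * h⁻¹) = 1 := by
  have h1 : χ 1 = 1 := by
    have h2 : χ 1 • v₁ = (1 : K) • v₁ := by
      rw [← hχ, map_one, Module.End.one_apply, one_smul]
    exact smul_left_injective K hv h2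
  have h3 : ∀ a : Q, χ a * χ a⁻¹ = 1 := by
    intro a
    rw [← N_FIT_mul ρ v₁ hv χ hχ, mul_inv_cancel, h1]
  rw [N_FIT_mul ρ v₁ hv χ hχ, N_FIT_mul ρ v₁ hv χ hχ, N_FIT_mul ρ v₁ hv χ hχ]
  have h4 := h3 g
  have h5 := h3 h
  calc χ g * χ h * χ g⁻¹ * χ h⁻¹ = (χ g * χ g⁻¹) * (χ h * χ h⁻¹) := by ring
    _ = 1 := by rw [h4, h5, one_mul]

/-- the case of an eigenvector with another eigenvalue -/
theorem N_FIT_main [FiniteDimensional K V] (ρ : Q →* Module.End K V) (v₁ : V) (hv : v₁ ≠ 0)
    (χ : Q → K) (hχ : ∀ g, ρ g v₁ = χ g • v₁) (x : Q) (l : K) (hml : χ x ≠ l)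
    (hM : ∀ (g : Q) (v : V), (∃ N : ℕ, ((ρ x - l • (1 : Module.End K V)) ^ N) v ∈
      Submodule.span K {v₁}) → ∃ N : ℕ, ((ρ x - l • (1 : Module.End K V)) ^ N) (ρ g v) ∈
      Submodule.span K {v₁}) (i : ℕ) :
    ∀ g ∈ Subgroup.upperCentralSeries Q i, ∀ w ∈ (ρ x).maxGenEigenspace l,
      ρ g w ∈ (ρ x).maxGenEigenspace l := by
  have hne : ∀ N : ℕ, (χ x - l) ^ N ≠ 0 := fun N => pow_ne_zero _ (sub_ne_zero.2 hml)
  have hex : ∀ v, (∃ N : ℕ, ((ρ x - l • (1 : Module.End K V)) ^ N) v ∈ Submodule.span K {v₁}) →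
      ∃ c : K, v - c • v₁ ∈ (ρ x).maxGenEigenspace l := by
    rintro v ⟨N, hN⟩
    obtain ⟨a, ha⟩ := Submodule.mem_span_singleton.1 hN
    refine ⟨a * ((χ x - l) ^ N)⁻¹, ?_⟩
    rw [Module.End.mem_maxGenEigenspace]
    refine ⟨N, ?_⟩
    rw [map_sub, map_smul, N_FIT_pow (ρ x) l (χ x) v₁ (hχ x), ← ha, smul_smul, mul_assoc,
      inv_mul_cancel₀ (hne N), mul_one, sub_self]
  have huniq : ∀ (v : V) (c c' : K), v - c • v₁ ∈ (ρ x).maxGenEigenspace l →
      v - c' • v₁ ∈ (ρ x).maxGenEigenspace l → c = c' := by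
    intro v c c' h1 h2
    have h3 : (c' - c) • v₁ ∈ (ρ x).maxGenEigenspace l := by
      have h4 := Submodule.sub_mem _ h1 h2
      have h5 : v - c • v₁ - (v - c' • v₁) = (c' - c) • v₁ := by
        rw [sub_smul]
        abel
      rwa [h5] at h4
    rw [Module.End.mem_maxGenEigenspace] at h3
    obtain ⟨N, hN⟩ := h3
    rw [map_smul, N_FIT_pow (ρ x) l (χ x) v₁ (hχ x), smul_smul] at hN
    rcases smul_eq_zero.1 hN with h4 | h4
    · rcases mul_eq_zero.1 h4 with h5 | h5
      · exact (sub_eq_zero.1 h5).symm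
      · exact absurd h5 (hne N)
    · exact absurd h4 hv
  have hxE : ∀ w ∈ (ρ x).maxGenEigenspace l, ρ x w ∈ (ρ x).maxGenEigenspace l := fun w hw =>
    Module.End.mapsTo_maxGenEigenspace_of_comm (Commute.refl (ρ x)) l hw
  have hEM : ∀ w ∈ (ρ x).maxGenEigenspace l,
      ∃ N : ℕ, ((ρ x - l • (1 : Module.End K V)) ^ N) w ∈ Submodule.span K {v₁} := by
    intro w hw
    rw [Module.End.mem_maxGenEigenspace] at hw
    obtain ⟨N, hN⟩ := hw
    exact ⟨N, by rw [hN]; exact Submodule.zero_mem _⟩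
  -- surjectivity of `x - m` on `E`
  have hsurj : ∀ w ∈ (ρ x).maxGenEigenspace l, ∃ w' ∈ (ρ x).maxGenEigenspace l,
      ρ x w' - χ x • w' = w := by
    have hmap : ∀ w ∈ (ρ x).maxGenEigenspace l,
        (ρ x - χ x • (1 : Module.End K V)) w ∈ (ρ x).maxGenEigenspace l := by
      intro w hw
      rw [LinearMap.sub_apply, LinearMap.smul_apply, Module.End.one_apply]
      exact Submodule.sub_mem _ (hxE w hw) (Submodule.smul_mem _ _ hw)
    let T : (ρ x).maxGenEigenspace l →ₗ[K] (ρ x).maxGenEigenspace l :=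
      (ρ x - χ x • (1 : Module.End K V)).restrict hmap
    have hinj : Function.Injective T := by
      rw [injective_iff_map_eq_zero]
      rintro ⟨w, hw⟩ h0
      have h1 : (ρ x - χ x • (1 : Module.End K V)) w = 0 := congrArg Subtype.val h0
      rw [LinearMap.sub_apply, LinearMap.smul_apply, Module.End.one_apply, sub_eq_zero] at h1
      have h2 := hw
      rw [Module.End.mem_maxGenEigenspace] at h2
      obtain ⟨N, hN⟩ := h2
      rw [N_FIT_pow (ρ x) l (χ x) w h1] at hN
      rcases smul_eq_zero.1 hN with h3 | h3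
      · exact absurd h3 (hne N)
      · exact Subtype.ext h3
    intro w hw
    obtain ⟨⟨w', hw'⟩, h1⟩ := (LinearMap.injective_iff_surjective (f := T)).1 hinj ⟨w, hw⟩
    refine ⟨w', hw', ?_⟩
    have h2 : (ρ x - χ x • (1 : Module.End K V)) w' = w := congrArg Subtype.val h1
    rwa [LinearMap.sub_apply, LinearMap.smul_apply, Module.End.one_apply] at h2
  induction i with
  | zero =>
    intro g hg w hw
    rw [Subgroup.upperCentralSeries_zero, Subgroup.mem_bot] at hg
    rw [hg, map_one, Module.End.one_apply]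
    exact hw
  | succ i ih =>
    intro g hg w hw
    rw [Subgroup.mem_upperCentralSeries_succ_iff] at hg
    have hh : x * g * x⁻¹ * g⁻¹ ∈ Subgroup.upperCentralSeries Q i := by
      have h1 := Subgroup.inv_mem _ (hg x)
      have h2 : (g * x * g⁻¹ * x⁻¹)⁻¹ = x * g * x⁻¹ * g⁻¹ := by group
      rw [commutatorElement_def, h2] at h1
      exact h1
    have hxg : x * g = (x * g * x⁻¹ * g⁻¹) * (g * x) := by group
    have hchi : χ (x * g * x⁻¹ * g⁻¹) = 1 := N_FIT_comm ρ v₁ hv χ hχ x g
    -- the key identity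
    have key : ∀ u ∈ (ρ x).maxGenEigenspace l,
        ρ g (ρ x u - χ x • u) ∈ (ρ x).maxGenEigenspace l := by
      intro u hu
      obtain ⟨c, hc⟩ := hex _ (hM g u (hEM u hu))
      obtain ⟨a, ha⟩ := hex _ (hM g (ρ x u) (hEM _ (hxE u hu)))
      have h1 : ρ x (ρ g u) - (χ x * c) • v₁ ∈ (ρ x).maxGenEigenspace l := by
        have h2 := hxE _ hc
        rw [map_sub, map_smul, hχ x, smul_smul, mul_comm] at h2
        exact h2
      have h3 : ρ x (ρ g u) - a • v₁ ∈ (ρ x).maxGenEigenspace l := by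
        have h4 := ih _ hh _ ha
        rw [map_sub, map_smul, hχ, hchi, one_smul] at h4
        have h5 : ρ (x * g * x⁻¹ * g⁻¹) (ρ g (ρ x u)) = ρ x (ρ g u) := by
          rw [← Module.End.mul_apply, ← Module.End.mul_apply, ← map_mul, ← map_mul, mul_assoc,
            ← hxg, map_mul, Module.End.mul_apply]
        rw [h5] at h4
        exact h4
      have h6 : a = χ x * c := huniq _ _ _ h3 h1
      have h7 : ρ g (ρ x u - χ x • u) = (ρ g (ρ x u) - a • v₁) - χ x • (ρ g u - c • v₁) := by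
        rw [map_sub, map_smul, h6, smul_sub, smul_smul]
        abel
      rw [h7]
      exact Submodule.sub_mem _ ha (Submodule.smul_mem _ _ hc)
    obtain ⟨w', hw', h8⟩ := hsurj w hw
    rw [← h8]
    exact key w' hw'

/-- powers in the quotient -/
theorem N_FIT_quo (ρ : Q →* Module.End K V) (W : Submodule K V) (hW : InvS ρ W) (x : Q) (l : K)
    (v : V) (N : ℕ) : ((quoS ρ W hW x - l • (1 : Module.End K (V ⧸ W))) ^ N) (W.mkQ v) =
      W.mkQ (((ρ x - l • (1 : Module.End K V)) ^ N) v) := by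
  induction N generalizing v with
  | zero => rw [pow_zero, pow_zero, Module.End.one_apply, Module.End.one_apply]
  | succ N ih =>
    rw [pow_succ, Module.End.mul_apply, pow_succ, Module.End.mul_apply, ← ih]
    rfl

theorem N_FIT_quo_mem (ρ : Q →* Module.End K V) (W : Submodule K V) (hW : InvS ρ W) (x : Q) (l : K)
    (v : V) : W.mkQ v ∈ (quoS ρ W hW x).maxGenEigenspace l ↔
      ∃ N : ℕ, ((ρ x - l • (1 : Module.End K V)) ^ N) v ∈ W := by
  rw [Module.End.mem_maxGenEigenspace]
  refine exists_congr fun N => ?_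
  rw [N_FIT_quo, Submodule.mkQ_apply, Submodule.Quotient.mk_eq_zero]

end

theorem N_FIT_ind (hR : N_RES_stmt) (K Q : Type) [Field K] [Group Q] (hQ : Group.IsNilpotent Q)
    (n : ℕ) : ∀ (V : Type) [AddCommGroup V] [Module K V] [FiniteDimensional K V],
    finrank K V = n → ∀ ρ : Q →* Module.End K V, TriS ρ → ∀ (x : Q) (l : K),
      InvS ρ ((ρ x).maxGenEigenspace l) := by
  induction n using Nat.strong_induction_on with
  | _ n IH =>
    intro V _ _ _ hn ρ hT x l
    by_cases htriv : ∀ v : V, v = 0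
    · intro g w _
      rw [htriv (ρ g w)]
      exact Submodule.zero_mem _
    push Not at htriv
    obtain ⟨v₀, hv₀⟩ := htriv
    have hlt : (⊥ : Submodule K V) < ⊤ := by
      rw [bot_lt_iff_ne_bot]
      intro h
      apply hv₀
      have h1 : v₀ ∈ (⊤ : Submodule K V) := Submodule.mem_top
      rw [h, Submodule.mem_bot] at h1
      exact h1
    obtain ⟨v₁, -, hv₁, hc⟩ := hT ⊥ ⊤ (by
      intro g w hw
      rw [Submodule.mem_bot] at hw ⊢
      rw [hw, map_zero]) (fun g w _ => Submodule.mem_top) hlt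
    rw [Submodule.mem_bot] at hv₁
    have hc' : ∀ g : Q, ∃ c : K, ρ g v₁ = c • v₁ := by
      intro g
      obtain ⟨c, h⟩ := hc g
      rw [Submodule.mem_bot, sub_eq_zero] at h
      exact ⟨c, h⟩
    choose χ hχ using hc'
    have hL : InvS ρ (Submodule.span K {v₁}) := by
      intro g w hw
      obtain ⟨a, ha⟩ := Submodule.mem_span_singleton.1 hw
      rw [← ha, map_smul, hχ g, smul_smul]
      exact Submodule.smul_mem _ _ (Submodule.mem_span_singleton_self v₁)
    have hfin : finrank K (V ⧸ Submodule.span K {v₁}) < n := by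
      have h1 := Submodule.finrank_quotient_add_finrank (Submodule.span K {v₁})
      rw [finrank_span_singleton hv₁, hn] at h1
      omega
    have hquo := IH _ hfin (V ⧸ Submodule.span K {v₁}) rfl (quoS ρ _ hL)
      (hR K V Q ρ (Submodule.span K {v₁}) hL hT).2 x l
    have hM : ∀ (g : Q) (v : V), (∃ N : ℕ, ((ρ x - l • (1 : Module.End K V)) ^ N) v ∈
        Submodule.span K {v₁}) → ∃ N : ℕ, ((ρ x - l • (1 : Module.End K V)) ^ N) (ρ g v) ∈
        Submodule.span K {v₁} := by
      intro g v hv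
      rw [← N_FIT_quo_mem ρ _ hL] at hv ⊢
      exact hquo g _ hv
    by_cases hml : χ x = l
    · intro g w hw
      have h1 : ∃ N : ℕ, ((ρ x - l • (1 : Module.End K V)) ^ N) w ∈ Submodule.span K {v₁} := by
        rw [Module.End.mem_maxGenEigenspace] at hw
        obtain ⟨N, hN⟩ := hw
        exact ⟨N, by rw [hN]; exact Submodule.zero_mem _⟩
      obtain ⟨N, hN⟩ := hM g w h1
      obtain ⟨a, ha⟩ := Submodule.mem_span_singleton.1 hN
      rw [Module.End.mem_maxGenEigenspace]
      refine ⟨N + 1, ?_⟩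
      rw [pow_succ', Module.End.mul_apply, ← ha, map_smul, LinearMap.sub_apply, LinearMap.smul_apply,
        Module.End.one_apply, hχ x, hml, sub_self, smul_zero]
    · obtain ⟨i, hi⟩ := hQ.nilpotent'
      intro g w hw
      exact N_FIT_main ρ v₁ hv₁ χ hχ x l hml hM i g (by rw [hi]; exact Subgroup.mem_top g) w hw

theorem N_FIT (hR : N_RES_stmt) : N_FIT_stmt := by
  intro K V _ _ _ _ Q _ hQ ρ hT x l
  exact N_FIT_ind hR K Q hQ _ V rfl ρ hT x l

end Pool.Agent.PR
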